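import Pool.Agent.H535Z.HG.Fill
import Pool.Agent.H21Z.Cone.Main
import Pool.Agent.H377Z.HG.VC
import Pool.Agent.H482Z.HG.Fp
import Pool.Agent.H148Z.HGBase
import Pool.Agent.H53Z.HG.Step
import Pool.Agent.H158Z.Lim
import Pool.Agent.H692Z.T0.Main

set_option autoImplicit false

/-!
# All steps, without hypotheses
-/

namespace Pool.Agent.H535Z.HG.All

open Pool.Agent.H535Z.HG

theorem vc : S_vc := Pool.Agent.H377Z.HG.thm_vc
theorem qc : S_qc := Pool.Agent.H377Z.HG.thm_qc
theorem cone : S_cone := Pool.Agent.H21Z.Cone.thm_cone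
theorem fp : S_fp := Pool.Agent.H482Z.HG.thm_fp
theorem fix : S_fix := Pool.Agent.H482Z.HG.thm_fix
theorem ex : S_ex := Pool.Agent.H482Z.HG.thm_ex
theorem fill : S_fill := thm_fill fp fix
theorem cyc : S_cyc := Pool.Agent.H53Z.HG.thm_cyc
theorem mal : S_mal := Pool.Agent.H53Z.HG.thm_mal vc
theorem step : S_step := Pool.Agent.H53Z.HG.thm_step vc cyc qc cone fill mal
theorem task : S_task := Pool.Agent.H158Z.Lim.thm_task qc cone ex mal step
theorem base : S_base := Pool.Agent.H148Z.HGBase.thm_base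
theorem lim : S_lim := Pool.Agent.H158Z.Lim.thm_lim base task
theorem t0 : S_T0 := Pool.Agent.H692Z.T0.thm_T0

theorem exists_simple_T0 :
    ∃ (G : Type) (_ : Group G), IsSimpleGroup G ∧ ∃ i : G, IsT0At G i := by
  obtain ⟨G, _, i, z, y, h1, h2, h3⟩ := lim
  exact ⟨G, inferInstance, h3, i, t0 G i z y h1 h2⟩

end Pool.Agent.H535Z.HG.All
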