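import Pool.Agent.H535Z.HG.FillA

set_option autoImplicit false
set_option linter.unusedSectionVars false
set_option linter.unusedVariables false

/-!
# Dehn filling
-/

namespace Pool.Agent.H535Z.HG

open Pool.Agent.H668Z.SC GS

lemma exists_bound {α : Type} (F : Set α) (hF : F.Finite) (P : α → ℕ → Prop)
    (hm : ∀ a n m, n ≤ m → P a n → P a m) (h : ∀ a, ∃ n, P a n) : ∃ n, ∀ a ∈ F, P a n := by
  choose f hf using h
  obtain ⟨n, hn⟩ := (hF.image f).bddAbove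
  exact ⟨n, fun a ha => hm a _ _ (hn ⟨a, ha, rfl⟩) (hf a)⟩

theorem thm_fill (hfp : S_fp) (hfix' : S_fix) : S_fill := by
  intro G W _ _ X o c E H F hF hF1
  classical
  obtain ⟨δ, hδ⟩ := H.hyp
  obtain ⟨TF, hTF⟩ := exists_bound F hF (fun g T => ∀ h : G, X.Dle (h • c) o (g • o) T)
    (fun a n m hnm h g => (h g).mono hnm) H.conn
  obtain ⟨θ, hθ⟩ : ∃ θ, θ = 16 * (6 * δ + 1) + 4 := ⟨_, rfl⟩
  have hθ1 : 1 ≤ θ := by omega
  obtain ⟨L, hL1, hL2, hL3, hL4⟩ : ∃ L, 50 * θ ≤ L ∧ (10 * θ + 5) * θ ≤ L ∧ TF ≤ L ∧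
      (θ + 5) * θ ≤ L :=
    ⟨50 * θ + (10 * θ + 5) * θ + TF + (θ + 5) * θ, by omega, by omega, by omega, by omega⟩
  refine ⟨{e : G | e ∈ E ∧ X.Av c (L + 2 * θ) o (e • o)}, H.fine _, fun f hf => hf.1, ?_⟩
  intro K hKE hK2 hK3 ⟨F₀, hF₀, hF₀'⟩
  have hK1 : ∀ k ∈ K, k • c = c := fun k hk => (H.stab k).mpr (hKE hk)
  let C : Set W := {v | ∃ g : G, g • c = v}
  let R : W → Subgroup G := fun v =>
    { carrier := {r | ∀ g : G, g • c = v → g⁻¹ * r * g ∈ K}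
      mul_mem' := fun {a b} ha hb g hg => by
        have := mul_mem (ha g hg) (hb g hg)
        rwa [show g⁻¹ * a * g * (g⁻¹ * b * g) = g⁻¹ * (a * b) * g by group] at this
      one_mem' := fun g _ => by simp
      inv_mem' := fun {a} ha g hg => by
        have := inv_mem (ha g hg)
        rwa [show (g⁻¹ * a * g)⁻¹ = g⁻¹ * a⁻¹ * g by group] at this }
  have hR : ∀ v r, r ∈ R v ↔ ∀ g : G, g • c = v → g⁻¹ * r * g ∈ K := fun _ _ => Iff.rfl
  have hR' : ∀ (g k : G), k ∈ K → g * k * g⁻¹ ∈ R (g • c) := by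
    intro g k hk a ha
    have h1 : a⁻¹ * g ∈ E := (H.stab _).mp (by rw [mul_smul, ← ha, inv_smul_smul])
    have := hK2 _ h1 k hk
    rwa [show a⁻¹ * g * k * (a⁻¹ * g)⁻¹ = a⁻¹ * (g * k * g⁻¹) * a by group] at this
  have hfix : ∀ v ∈ C, ∀ r ∈ R v, r • v = v := by
    rintro _ ⟨g, rfl⟩ r hr
    have := hK1 _ (hr g rfl)
    rw [mul_smul, mul_smul, inv_smul_eq_iff] at this
    exact this
  have hnbg : ∀ (g : G) (u : W), X.d (g • c) u = 1 → ∃ e ∈ E, u = (g * e) • o := by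
    intro g u hu
    obtain ⟨e, he, h⟩ := (H.nb (g⁻¹ • u)).mp (by rw [← H.iso g, smul_inv_smul]; exact hu)
    exact ⟨e, he, by rw [mul_smul, ← h, smul_inv_smul]⟩
  have hco : X.d c o = 1 := (H.nb o).mpr ⟨1, one_mem _, (one_smul _ _).symm⟩
  have hRot : Rot X C R θ L := by
    refine ⟨H.iso, ?_, hfix, ?_, fun c _ a b h => hθ ▸ hδ.four.dle h, ?_,
      le_trans (Nat.mul_le_mul_right _ (by norm_num)) hL1⟩
    · rintro g _ ⟨g', rfl⟩
      exact ⟨g * g', mul_smul _ _ _⟩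
    · intro g c hc r hr g' hg'
      have := hr (g⁻¹ * g') (by rw [mul_smul, hg', inv_smul_smul])
      rwa [show (g⁻¹ * g')⁻¹ * r * (g⁻¹ * g') = g'⁻¹ * (g * r * g⁻¹) * g' by group] at this
    · rintro _ ⟨g, rfl⟩ y hy r hr hr1 hd
      obtain ⟨u, hu⟩ := exists_pr (X := X) hy
      have hu2 := (H.iso.pr r).mpr hu
      rw [hfix _ ⟨g, rfl⟩ r hr] at hu2
      obtain ⟨e, he, rfl⟩ := hnbg g u hu.1
      have hge : (g * e) • c = g • c := by rw [mul_smul, (H.stab e).mpr he]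
      have h1 := H.iso.av (g * e)⁻¹ (hd _ _ hu hu2)
      rw [← hge, inv_smul_smul, inv_smul_smul, ← mul_smul, ← mul_smul] at h1
      have h4 := hr (g * e) hge
      have h5 := hK3 _ ⟨hKE h4, h1⟩ h4
      apply hr1
      have : r = (g * e) * ((g * e)⁻¹ * r * (g * e)) * (g * e)⁻¹ := by group
      rw [this, h5]; group
  have hoC : o ∉ C := by
    rintro ⟨g', h⟩
    exact H.onc g' h
  have hcC : c ∈ C := ⟨1, one_smul _ _⟩
  have hnb : ∀ y, ∃ z, z ∉ C ∧ X.d z y ≤ 1 := by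
    intro y
    by_cases hy : y ∈ C
    · obtain ⟨g, rfl⟩ := hy
      exact ⟨g • o, hRot.smul_notMem g hoC, by rw [H.iso, X.symm, hco]⟩
    · exact ⟨y, hy, by rw [X.d_self]; omega⟩
  have hind : ∀ v ∈ C, ∀ v' ∈ C, X.d v v' ≠ 1 := by
    rintro _ ⟨g, rfl⟩ v' hv' h
    obtain ⟨e, he, rfl⟩ := hnbg g v' h
    exact hRot.smul_notMem _ hoC hv'
  have hN := hRot.normal
  set N := rotSub C R with hNdef
  set Z := qGS N X H.iso with hZ
  have hslim : Z.Slim δ := hRot.slim_quot hnb (by omega) hδ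
  have hZiso : Iso Z (G ⧸ N) := iso_quot H.iso
  have hZbgi : ∀ S, BGI Z S θ := fun S c _ a b h => hθ ▸ hslim.four.dle h
  have hone : ∀ g : G, QuotientGroup.mk' N g = 1 ↔ g ∈ N := fun g => QuotientGroup.eq_one_iff g
  have hZd : ∀ x y : W, Z.d (qmk N x) (qmk N y) ≤ X.d x y := fun x y => qd_le x y
  have hEK : ∀ e ∈ E, QuotientGroup.mk' N e = 1 ↔ e ∈ K := by
    intro g hg
    rw [hone]
    constructor
    · intro h
      obtain ⟨z, hz, hd⟩ := hnb c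
      have := hRot.stab_mem hz hd g h ((H.stab g).mpr hg) hcC 1 (one_smul _ _)
      simpa using this
    · intro h
      refine mem_rotSub (C := C) (R := R) (c := c) hcC ?_
      have := hR' 1 g h
      simpa using this
  let C' : Set (QV N W) := qmk N '' C
  have hC'1 : ∀ x, qmk N x ∈ C' ↔ x ∈ C := by
    intro x
    refine ⟨?_, fun h => ⟨x, h, rfl⟩⟩
    rintro ⟨y, hy, h⟩
    obtain ⟨n, hn, rfl⟩ := qmk_eq.mp h
    exact hRot.smul_mem n y hy
  have hC'2 : ∀ (γ : G ⧸ N), ∀ v ∈ C', γ • v ∈ C' := by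
    rintro γ _ ⟨x, hx, rfl⟩
    obtain ⟨g, rfl⟩ := QuotientGroup.mk'_surjective N γ
    exact ⟨g • x, hRot.smul_mem g x hx, (qsmul g x).symm⟩
  have hC'3 : ∀ v ∈ C', ∀ v' ∈ C', Z.d v v' ≠ 1 := by
    rintro _ ⟨x, hx, rfl⟩ v' hv' h
    obtain ⟨y, rfl, h2⟩ := qd_lift (N := N) H.iso x v'
    exact hind x hx y ((hC'1 y).mp hv') (h2.trans h)
  have hstab : ∀ (γ : G ⧸ N) (t : G), γ • qmk N (t • c) = qmk N (t • c) →
      ∃ e ∈ E, γ = QuotientGroup.mk' N (t * e * t⁻¹) := by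
    intro γ t h
    obtain ⟨g, rfl⟩ := QuotientGroup.mk'_surjective N γ
    rw [qsmul] at h
    obtain ⟨n, hn, h⟩ := qmk_eq.mp h
    refine ⟨t⁻¹ * (n * g) * t, (H.stab _).mp ?_, ?_⟩
    · rw [mul_smul, mul_smul, mul_smul, h, inv_smul_smul]
    · rw [show t * (t⁻¹ * (n * g) * t) * t⁻¹ = n * g by group, map_mul, (hone n).mpr hn, one_mul]
  -- lifting of finite subgroups
  have hsub : ∀ (Hq : Subgroup (G ⧸ N)) (p : W), p ∉ C →
      (∀ h ∈ Hq, ∀ v ∈ C', Z.Dle v (qmk N p) (h • qmk N p) (4 * θ)) →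
      ∃ H' : Subgroup G, (∀ g ∈ H', Sm X C p g (12 * θ)) ∧
        (∀ g ∈ H', QuotientGroup.mk' N g ∈ Hq) ∧
        (∀ h ∈ Hq, ∃ g ∈ H', QuotientGroup.mk' N g = h) ∧
        ∀ g ∈ H', QuotientGroup.mk' N g = 1 → g = 1 := by
    intro Hq p hp hs
    have hl : ∀ h ∈ Hq, ∃ g : G, QuotientGroup.mk' N g = h ∧ Sm X C p g (12 * θ) := by
      intro h hh
      obtain ⟨g, h1, h2⟩ := sm_lift hRot hnb hind hp (10 * θ) (by omega) hL2 h
        (fun v hv => (hs h hh _ ⟨v, hv, rfl⟩).mono (by omega))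
      exact ⟨g, h1, h2.mono (by omega)⟩
    refine ⟨{ carrier := {g | QuotientGroup.mk' N g ∈ Hq ∧ Sm X C p g (12 * θ)}
              one_mem' := ⟨by rw [map_one]; exact one_mem _, (sm_one hRot hp).mono (by omega)⟩
              inv_mem' := fun {a} ha => ⟨by rw [map_inv]; exact inv_mem ha.1, sm_inv hRot ha.2⟩
              mul_mem' := fun {a b} ha hb => ?_ }, fun g hg => hg.2, fun g hg => hg.1,
      fun h hh => ?_, fun g hg h1 => ?_⟩
    · have h1 : QuotientGroup.mk' N (a * b) ∈ Hq := by rw [map_mul]; exact mul_mem ha.1 hb.1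
      obtain ⟨g, h2, h3⟩ := hl _ h1
      have h4 : a * b * g⁻¹ = 1 := eq_one_of_sm hRot hp
        ((hone _).mp (by rw [map_mul, map_inv, h2, mul_inv_cancel]))
        (sm_mul hRot hp (sm_mul hRot hp ha.2 hb.2) (sm_inv hRot h3)) (by omega)
      rw [mul_inv_eq_one] at h4
      exact ⟨h1, h4 ▸ h3⟩
    · obtain ⟨g, h2, h3⟩ := hl h hh
      exact ⟨g, ⟨h2 ▸ hh, h3⟩, h2⟩
    · exact eq_one_of_sm hRot hp ((hone _).mp h1) hg.2 (by omega)
  have hfp' : ∀ Hq : Subgroup (G ⧸ N), Finite Hq →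
      (∃ t : G, ∀ h ∈ Hq, ∃ e ∈ E, h = QuotientGroup.mk' N (t * e * t⁻¹)) ∨
      ∃ p, p ∉ C ∧ ∀ h ∈ Hq, ∀ v ∈ C', Z.Dle v (qmk N p) (h • qmk N p) (4 * θ) := by
    intro Hq hfin
    obtain ⟨r, hr⟩ := exists_bound (Hq : Set (G ⧸ N)) (Set.toFinite _)
      (fun h n => Z.d (qmk N o) (h • qmk N o) ≤ n) (fun a n m hnm h => h.trans hnm)
      (fun a => ⟨_, le_rfl⟩)
    rcases hfp (G ⧸ N) (QV N W) Z C' θ hZiso (hZbgi _) hC'2 hC'3 Hq (qmk N o) r hr with
      ⟨_, ⟨_, ⟨t, rfl⟩, rfl⟩, h⟩ | ⟨p, hp, h⟩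
    · exact Or.inl ⟨t, fun g hg => hstab g t (h g hg)⟩
    · obtain ⟨p, rfl⟩ := qmk_surj p
      exact Or.inr ⟨p, fun h => hp ((hC'1 p).mpr h), h⟩
  refine ⟨G ⧸ N, inferInstance, QuotientGroup.mk' N, QuotientGroup.mk'_surjective N, ?_,
    ⟨QV N W, inferInstance, Z, qmk N o, hZiso, ⟨δ, hslim⟩, ?_, ?_⟩, ?_, hEK, ?_, ?_, ?_⟩
  · rw [QuotientGroup.ker_mk']
    apply le_antisymm
    · rw [hNdef, rotSub, Subgroup.closure_le]
      rintro g ⟨_, ⟨t, rfl⟩, hg⟩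
      have h1 : t⁻¹ * g * t ∈ Subgroup.normalClosure (K : Set G) :=
        Subgroup.subset_normalClosure (hg t rfl)
      have := (inferInstance : (Subgroup.normalClosure (K : Set G)).Normal).conj_mem _ h1 t
      rwa [show t * (t⁻¹ * g * t) * t⁻¹ = g by group] at this
    · apply Subgroup.normalClosure_le_normal
      intro k hk
      exact (hone k).mp ((hEK k (hKE hk)).mpr hk)
  · -- properness
    intro R₀
    obtain ⟨T₀, hT₀⟩ := exists_bound F₀ hF₀ (fun g T => ∀ h : G, X.Dle (h • c) o (g • o) T)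
      (fun a n m hnm h g => (h g).mono hnm) H.conn
    refine ((H.prop R₀ (T₀ + 2 * θ + 2 * θ)).image (QuotientGroup.mk' N)).subset ?_
    intro γ hγ
    obtain ⟨g, h1, h2, h3⟩ := elt_lift hRot hoC (T₀ + 2 * θ) (by omega) γ (by
      rintro _ ⟨t, rfl⟩ u w a1 a2 _ _
      obtain ⟨e, he, rfl⟩ := hnbg t u a1
      obtain ⟨e', he', rfl⟩ := hnbg t w a2
      obtain ⟨f, hf, hr⟩ := hF₀' _ (mul_mem (inv_mem he) he')
      have hfE : f ∈ E := by
        have := mul_mem (inv_mem (hKE hr)) (mul_mem (inv_mem he) he')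
        rwa [show (e⁻¹ * e' * f⁻¹)⁻¹ * (e⁻¹ * e') = f by group] at this
      have hte : (t * e) • c = t • c := by rw [mul_smul, (H.stab e).mpr he]
      refine ⟨(t * e) * (e⁻¹ * e' * f⁻¹)⁻¹ * (t * e)⁻¹, hte ▸ hR' _ _ (inv_mem hr), ?_⟩
      have b1 : X.d c (f • o) = 1 := (H.nb _).mpr ⟨f, hfE, rfl⟩
      have b2 := hT₀ f hf 1
      rw [one_smul] at b2
      have b3 := H.iso.av (t * e) (b2 o (f • o) ⟨hco, by rw [X.d_self, hco]⟩
        ⟨b1, by rw [X.d_self, b1]⟩)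
      rw [hte, ← mul_smul] at b3
      rw [← mul_smul, show (t * e) * (e⁻¹ * e' * f⁻¹)⁻¹ * (t * e)⁻¹ * (t * e') = t * e * f by group]
      exact b3.mono (by omega))
    exact ⟨g, ⟨h2.le.trans hγ, fun h => h3 _ ⟨h, rfl⟩⟩, h1⟩
  · obtain ⟨K₀, hK₀⟩ := H.cob
    refine ⟨K₀, fun v => ?_⟩
    obtain ⟨x, rfl⟩ := qmk_surj v
    obtain ⟨g, hg⟩ := hK₀ x
    exact ⟨QuotientGroup.mk' N g, by rw [qsmul]; exact (hZd _ _).trans hg⟩
  · intro f hf h1
    have := eq_one_of_sm hRot hoC ((hone f).mp h1) (T := TF)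
      (by rintro _ ⟨h, rfl⟩; exact hTF f hf h) hL3
    exact hF1 (this ▸ hf)
  · intro Hq hfin
    rcases hfp' Hq hfin with h | ⟨p, hp, h⟩
    · exact Or.inl h
    · obtain ⟨H', h1, h2, h3, h4⟩ := hsub Hq p hp h
      refine Or.inr ⟨H', ?_, ?_⟩
      · refine Finite.of_injective (fun g : H' => (⟨_, h2 g g.2⟩ : Hq)) ?_
        intro a b hab
        have h5 : QuotientGroup.mk' N (a : G) = QuotientGroup.mk' N (b : G) :=
          congrArg Subtype.val hab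
        have h6 := h4 _ (mul_mem a.2 (inv_mem b.2)) (by rw [map_mul, map_inv, h5, mul_inv_cancel])
        exact Subtype.ext (mul_inv_eq_one.mp h6)
      · ext γ
        constructor
        · rintro ⟨g, hg, rfl⟩; exact h2 g hg
        · intro hγ; exact h3 γ hγ
  · intro r a hr hnot hcomm
    have hfin : Finite (Subgroup.zpowers r) := hr.finite_zpowers
    rcases hfp' _ hfin with ⟨t, h⟩ | ⟨p, hp, h⟩
    · exact absurd ⟨t, h r (Subgroup.mem_zpowers r)⟩ hnot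
    obtain ⟨H', h1, h2, h3, h4⟩ := hsub _ p hp h
    obtain ⟨r', hr', hr1⟩ := h3 r (Subgroup.mem_zpowers r)
    have hpC : qmk N p ∉ C' := fun h => hp ((hC'1 p).mp h)
    obtain ⟨a', ha1, ha2⟩ := sm_lift hRot hnb hind hp (10 * θ) (by omega) hL2 a (by
      rintro _ ⟨t, rfl⟩
      by_contra hbig
      refine hnot ⟨t, hstab r t (hfix' (G ⧸ N) (QV N W) Z C' θ (4 * θ) hZiso (hZbgi _) hC'2 r
        (qmk N p) (a • qmk N p) _ hr hpC ?_ ⟨_, ⟨t, rfl⟩, rfl⟩ (fun j => ⟨?_, ?_⟩) ?_)⟩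
      · intro h5
        have := hC'2 a⁻¹ _ h5
        rw [inv_smul_smul] at this
        exact hpC this
      · exact h _ (Subgroup.npow_mem_zpowers r j) _ ⟨_, ⟨t, rfl⟩, rfl⟩
      · have h5 := hZiso.dle a (h _ (Subgroup.npow_mem_zpowers r j) _
          (hC'2 a⁻¹ _ ⟨_, ⟨t, rfl⟩, rfl⟩))
        rw [smul_inv_smul, ← mul_smul, (hcomm.pow_right j).eq, mul_smul] at h5
        exact h5
      · intro h5
        exact hbig (h5.mono (by omega)))
    refine ⟨r', a', hr1, ha1, ?_, ?_⟩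
    · have h5 : a' * r' * a'⁻¹ * r'⁻¹ = 1 := eq_one_of_sm hRot hp
        ((hone _).mp (by
          rw [map_mul, map_mul, map_mul, map_inv, map_inv, ha1, hr1, hcomm.eq]; group))
        (sm_mul hRot hp (sm_mul hRot hp (sm_mul hRot hp ha2 (h1 _ hr')) (sm_inv hRot ha2))
          (sm_inv hRot (h1 _ hr'))) (by omega)
      rw [mul_inv_eq_one, mul_inv_eq_iff_eq_mul] at h5
      exact h5
    · rw [orderOf_eq_orderOf_iff]
      intro n
      constructor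
      · intro h5; rw [← hr1, ← map_pow, h5, map_one]
      · intro h5; exact h4 _ (pow_mem hr' n) (by rw [map_pow, hr1, h5])
  · rintro e he t ⟨e', he', h1⟩
    by_cases htc : qmk N (t • c) = qmk N c
    · left
      obtain ⟨n, hn, h⟩ := qmk_eq.mp htc
      rw [← mul_smul] at h
      exact ⟨n * t, (H.stab _).mp h, by rw [map_mul, (hone n).mpr hn, one_mul]⟩
    right
    have f1 : QuotientGroup.mk' N e • qmk N c = qmk N c := by rw [qsmul, (H.stab e).mpr he]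
    have f2 : QuotientGroup.mk' N e • qmk N (t • c) = qmk N (t • c) := by
      have : QuotientGroup.mk' N e = QuotientGroup.mk' N (t * e' * t⁻¹) := by
        rw [map_mul, map_mul, ← h1, ← map_mul, ← map_mul]
        congr 1; group
      rw [this, qsmul, mul_smul, mul_smul, inv_smul_smul, (H.stab e').mpr he']
    obtain ⟨ub, hub⟩ := exists_pr (X := Z) htc
    have hub2 := (hZiso.pr (QuotientGroup.mk' N e)).mpr hub
    rw [f1, f2] at hub2
    have hav := hZbgi Set.univ (qmk N c) trivial (qmk N (t • c)) (qmk N (t • c))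
      (not_btw_of_le_one (by rw [Z.d_self]; omega) (Ne.symm htc) (Ne.symm htc)) _ _ hub hub2
    obtain ⟨u, rfl, hu⟩ := qd_lift (N := N) H.iso c ub
    have hu1 : X.d c u = 1 := hu.trans hub.1
    have hu2 : X.d c (e • u) = 1 := by
      conv_lhs => rw [← (H.stab e).mpr he, H.iso]
      exact hu1
    rw [qsmul] at hav
    obtain ⟨r, hr, hav2⟩ := loc_lift hRot hnb hind θ hL4 hcC hu1 hu2 hav
    obtain ⟨e₁, he₁, rfl⟩ := (H.nb u).mp hu1
    have hrK : r ∈ K := by simpa using hr 1 (one_smul _ _)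
    have b1 := H.iso.av e₁⁻¹ hav2
    rw [(H.stab _).mpr (inv_mem he₁), inv_smul_smul, ← mul_smul, ← mul_smul, ← mul_smul] at b1
    refine ⟨e₁, he₁, e₁⁻¹ * r * e * e₁, ⟨mul_mem (mul_mem (mul_mem (inv_mem he₁) (hKE hrK)) he) he₁,
      b1.mono (by omega)⟩, ?_⟩
    simp only [map_mul, (hEK r (hKE hrK)).mpr hrK, mul_one]

end Pool.Agent.H535Z.HG
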