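import Pool.Agent.H535Z.HG.St

set_option autoImplicit false
set_option linter.unusedSectionVars false
set_option linter.unusedVariables false

/-!
# Lifting lemmas for rotating families
-/

namespace Pool.Agent.H535Z.HG

open Pool.Agent.H668Z.SC GS

variable {V G : Type} [Group G] [MulAction G V]
variable {X : GS V} {C : Set V} {R : V → Subgroup G} {θ L : ℕ}

/-- `g` moves `p` by small angles -/
def Sm (X : GS V) (C : Set V) (p : V) (g : G) (T : ℕ) : Prop := ∀ c ∈ C, X.Dle c p (g • p) T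

lemma Sm.mono {p : V} {g : G} {T T' : ℕ} (h : Sm X C p g T) (hT : T ≤ T') : Sm X C p g T' :=
  fun c hc => (h c hc).mono hT

lemma sm_mul (H : Rot X C R θ L) {p : V} (hp : p ∉ C) {g g' : G} {T T' : ℕ}
    (h : Sm X C p g T) (h' : Sm X C p g' T') : Sm X C p (g * g') (T + T') := by
  intro c hc
  have h1 := H.iso.dle g (h' (g⁻¹ • c) (H.smul_mem _ _ hc))
  rw [smul_inv_smul, ← mul_smul] at h1
  exact (h c hc).trans (fun e => H.smul_notMem g hp (e ▸ hc)) h1

lemma sm_inv (H : Rot X C R θ L) {p : V} {g : G} {T : ℕ}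
    (h : Sm X C p g T) : Sm X C p g⁻¹ T := by
  intro c hc
  have h1 := H.iso.dle g⁻¹ (h (g • c) (H.smul_mem _ _ hc))
  rw [inv_smul_smul, inv_smul_smul] at h1
  exact h1.symm

lemma sm_one (H : Rot X C R θ L) {p : V} (hp : p ∉ C) : Sm X C p (1 : G) θ := by
  intro c hc
  have hne : c ≠ p := fun e => hp (e ▸ hc)
  rw [one_smul]
  exact H.bgi c hc p p (not_btw_of_le_one (by rw [X.d_self]; omega) hne hne)

lemma eq_one_of_sm (H : Rot X C R θ L) {p : V} (hp : p ∉ C) {g : G} (hg : g ∈ rotSub C R)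
    {T : ℕ} (h : Sm X C p g T) (hT : T ≤ L) : g = 1 := by
  by_contra h1
  obtain ⟨c, hc, r, _, _, _, h2⟩ := H.greendlinger hp hg h1
  exact h2 ((h c hc).mono hT)

lemma iso_quot [hN : (rotSub C R).Normal] (hi : Iso X G) :
    Iso (qGS (rotSub C R) X hi) (G ⧸ rotSub C R) := by
  have key : ∀ (γ : G ⧸ rotSub C R) (a b : QV (rotSub C R) V),
      (qGS (rotSub C R) X hi).d (γ • a) (γ • b) ≤ (qGS (rotSub C R) X hi).d a b := by
    intro γ a b
    obtain ⟨g, rfl⟩ := QuotientGroup.mk'_surjective (rotSub C R) γ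
    obtain ⟨x, rfl⟩ := qmk_surj a
    obtain ⟨y, rfl, h2⟩ := qd_lift (N := rotSub C R) hi x b
    rw [qsmul, qsmul]
    have := qd_le (N := rotSub C R) (X := X) (g • x) (g • y)
    rw [hi, h2] at this
    exact this
  intro γ a b
  refine le_antisymm (key γ a b) ?_
  have := key γ⁻¹ (γ • a) (γ • b)
  rwa [inv_smul_smul, inv_smul_smul] at this

/-- small angles at an apex lift -/
theorem loc_lift (H : Rot X C R θ L) (hnb : ∀ y, ∃ z, z ∉ C ∧ X.d z y ≤ 1)
    (hind : ∀ c ∈ C, ∀ c' ∈ C, X.d c c' ≠ 1) (M : ℕ) (hL : (M + 5) * θ ≤ L)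
    {c u w : V} (hc : c ∈ C) (hu1 : X.d c u = 1) (hw1 : X.d c w = 1)
    (hw2 : (qGS (rotSub C R) X H.iso).Av (qmk (rotSub C R) c) M (qmk (rotSub C R) u)
      (qmk (rotSub C R) w)) :
    ∃ r ∈ R c, X.Av c M u (r • w) := by
  obtain ⟨ζ, z0, zM, zc, zd⟩ := Av.exists_seq hw2
  obtain ⟨y, h0, h1, h2⟩ := lift_seq H.iso
    (fun i => if i = 0 then qmk (rotSub C R) c else if i ≤ M + 1 then ζ (i - 1)
      else qmk (rotSub C R) c) c (by simp)
  have h4 := h1 (M + 2)
  rw [if_neg (by omega), if_neg (by omega)] at h4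
  obtain ⟨m, hm, hm2⟩ := qmk_eq.mp h4.symm
  obtain ⟨n, hn1, hn2, hn3, hn4⟩ := H.lift_closed hnb (k := M + 2) hL hm y (by rw [h0, hm2])
  have hq : ∀ i, i ≤ M → qmk (rotSub C R) (n (i + 1) • y (i + 1)) = ζ i := by
    intro i hi
    rw [qmk_smul (hn1 _), h1, if_neg (by omega), if_pos (by omega)]
    rfl
  have e0 : X.d c (n 1 • y 1) ≤ 1 := by
    have a1 := hn4 0 (by omega)
    have a2 := h2 0
    rw [hn2, one_smul] at a1
    rw [if_pos rfl, if_neg (by omega), if_pos (by omega), Nat.sub_self, z0] at a2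
    rw [a2, h0] at a1
    exact a1.trans ((qd_le c u).trans hu1.le)
  have eM : X.d (n (M + 1) • y (M + 1)) c ≤ 1 := by
    have a1 := hn4 (M + 1) (by omega)
    have a2 := h2 (M + 1)
    rw [if_neg (by omega), if_pos le_rfl, if_neg (by omega), if_neg (by omega),
      Nat.add_sub_cancel, zM] at a2
    rw [hn3, h0, a2] at a1
    refine a1.trans ((qd_le w c).trans ?_)
    rw [X.symm]; exact hw1.le
  have ei : ∀ i, i < M → X.d (n (i + 1) • y (i + 1)) (n (i + 1 + 1) • y (i + 1 + 1)) ≤ 1 := by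
    intro i hi
    have a1 := hn4 (i + 1) (by omega)
    have a2 := h2 (i + 1)
    rw [if_neg (by omega), if_pos (by omega), if_neg (by omega), if_pos (by omega),
      Nat.add_sub_cancel, Nat.add_sub_cancel] at a2
    rw [a2] at a1
    exact a1.trans (zd i)
  obtain ⟨s, hs, hsc, hsu⟩ : ∃ s ∈ rotSub C R, s • c = c ∧ s • (n 1 • y 1) = u := by
    have a1 := hq 0 (by omega)
    rw [z0] at a1
    obtain ⟨s, hs, hs2⟩ := qmk_eq.mp a1
    simp only [zero_add] at hs2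
    have huC : u ∉ C := fun h => hind c hc u h hu1
    refine ⟨s, hs, H.edge_unique huC s hs c (by rw [X.symm]; exact hu1.le) ?_, hs2⟩
    rw [← hs2, H.iso, X.symm]
    exact e0
  have hne : ∀ i, i ≤ M → s • n (i + 1) • y (i + 1) ≠ c := by
    intro i hi h
    apply zc i
    rw [← hq i hi, ← qmk_smul hs, h]
  have b1 : X.d c (s • n (M + 1) • y (M + 1)) ≤ 1 := by
    conv_lhs => rw [← hsc, H.iso, X.symm]
    exact eM
  have b2 : X.Av c M u (s • n (M + 1) • y (M + 1)) := by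
    have := av_of_seq (X := X) (c := c) M (fun i => s • n (i + 1) • y (i + 1)) hne
      (fun i hi => by rw [H.iso]; exact ei i hi)
    simp only [zero_add] at this
    rwa [hsu] at this
  have b3 : qmk (rotSub C R) w = qmk (rotSub C R) (s • n (M + 1) • y (M + 1)) := by
    rw [qmk_smul hs, hq M le_rfl, zM]
  obtain ⟨k, hk, hk2⟩ := qmk_eq.mp b3
  rw [← hk2] at b1 b2
  have hwC : w ∉ C := fun h => hind c hc w h hw1
  have b4 : k⁻¹ • c = c := by
    refine H.edge_unique hwC k⁻¹ (inv_mem hk) c (by rw [X.symm]; exact hw1.le) ?_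
    rw [X.symm, H.iso.d_inv]; exact b1
  have b5 : k • c = c := by
    conv_lhs => rw [← b4]
    rw [smul_inv_smul]
  exact ⟨k, H.stab_mem hwC (by rw [X.symm]; exact hw1.le) k hk b5 hc, b2⟩

/-- geodesics lift with controlled angles -/
theorem geo_lift (H : Rot X C R θ L) (p : V) (T : ℕ) (hT : 2 * θ ≤ T) :
    ∀ (k : ℕ) (b : QV (rotSub C R) V), (qGS (rotSub C R) X H.iso).d (qmk _ p) b = k →
    (∀ c ∈ C, ∀ u w, X.d c u = 1 → X.d c w = 1 →
      (qGS (rotSub C R) X H.iso).Btw (qmk _ p) (qmk _ c) b →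
      (qGS (rotSub C R) X H.iso).Pr (qmk _ c) (qmk _ p) (qmk _ u) →
      (qGS (rotSub C R) X H.iso).Pr (qmk _ c) b (qmk _ w) → ∃ r ∈ R c, X.Av c T u (r • w)) →
    ∃ q, qmk (rotSub C R) q = b ∧ X.d p q = k ∧ ∀ c ∈ C, p ≠ c → q ≠ c → Dex X c p q T := by
  intro k
  induction k with
  | zero =>
    intro b hb _
    refine ⟨p, (qGS (rotSub C R) X H.iso).eq_of_d _ _ hb, X.d_self p, fun c hc h1 _ => ?_⟩
    exact dex_of_dle ((H.bgi c hc p p
      (not_btw_of_le_one (by rw [X.d_self]; omega) h1.symm h1.symm)).mono (by omega)) h1 h1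
  | succ k ih =>
    intro b hb hP
    set Z := qGS (rotSub C R) X H.iso with hZ
    have hZd : ∀ x y : V, Z.d (qmk _ x) (qmk _ y) ≤ X.d x y := fun x y => qd_le x y
    obtain ⟨b', hb1, hb2⟩ := exists_btw (X := Z) (qmk _ p) b k (by omega)
    have hb3 : Z.d b' b = 1 := by unfold GS.Btw at hb2; omega
    obtain ⟨q', hq1, hq2, hq3⟩ := ih b' hb1 (by
      intro c hc u w h1 h2 h3 h4 h5
      have t1 := Z.tri (qmk _ c) b' b
      have t2 := Z.tri (qmk _ p) (qmk _ c) b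
      refine hP c hc u w h1 h2 (by unfold GS.Btw at *; omega) h4
        (pr_of_btw (by unfold GS.Btw at *; omega) h5))
    obtain ⟨q1, hq4, hq5⟩ := qd_lift (N := rotSub C R) H.iso q' b
    have hq6 : X.d q' q1 = 1 := by
      rw [hq5, hq1]; exact hb3
    have key : ∀ q, qmk (rotSub C R) q = b → X.d q' q = 1 →
        (q' ∈ C → p ≠ q' → Dex X q' p q T) →
        X.d p q = k + 1 ∧ ∀ c ∈ C, p ≠ c → q ≠ c → Dex X c p q T := by
      intro q e1 e2 e3
      have d1 : X.d p q = k + 1 := by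
        have t1 := X.tri p q' q
        have t2 := hZd p q
        rw [e1] at t2
        omega
      refine ⟨d1, fun c hc h1 h2 => ?_⟩
      by_cases hs : X.Dle c p q (2 * θ)
      · exact dex_of_dle (hs.mono hT) h1 h2
      by_cases hcq : c = q'
      · subst hcq; exact e3 hc h1
      have b1 := H.bgi.btw hc (by omega) hs
      have b2 : X.Btw p q' q := by unfold GS.Btw; omega
      have b3 := d_pos (X := X) hcq
      have b4 := d_pos (X := X) h2.symm
      have s1 := X.symm c q'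
      rcases H.bgi.all hc hs b2 with h | h
      · exfalso; unfold GS.Btw at *; omega
      · obtain ⟨u, w, a1, a2, a3⟩ := hq3 c hc h1 (Ne.symm hcq)
        exact ⟨u, w, a1, pr_of_btw h a2, a3⟩
    by_cases hc : q' ∈ C ∧ p ≠ q'
    · obtain ⟨u, hu⟩ := exists_pr (X := X) hc.2
      have s1 := X.symm q' p
      have s2 := Z.symm (qmk _ q') (qmk _ p)
      have t1 := hZd q' u
      have t2 := hZd u p
      have t3 := Z.tri (qmk _ q') (qmk _ u) (qmk _ p)
      have hu1 := hu.1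
      have hu2 := hu.2
      rw [← hq1] at hb1 hb2 hb3
      obtain ⟨r, hr, hav⟩ := hP q' hc.1 u q1 hu.1 hq6 hb2 ⟨by omega, by omega⟩
        ⟨by rw [hq4]; exact hb3, by rw [hq4, Z.d_self, hb3]⟩
      have e2 : X.d q' (r • q1) = 1 := by
        conv_lhs => rw [← H.fix q' hc.1 r hr, H.iso]
        exact hq6
      have e1 : qmk (rotSub C R) (r • q1) = b := by rw [qmk_smul (mem_rotSub hc.1 hr), hq4]
      exact ⟨r • q1, e1, key _ e1 e2
        (fun _ _ => ⟨u, r • q1, hu, ⟨e2, by rw [X.d_self, e2]⟩, hav⟩)⟩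
    · exact ⟨q1, hq4, key _ hq4 hq6 (fun h1 h2 => absurd ⟨h1, h2⟩ hc)⟩

/-- elements with controlled angles lift -/
theorem elt_lift (H : Rot X C R θ L) [hN : (rotSub C R).Normal] {p : V} (hp : p ∉ C) (T : ℕ)
    (hT : 2 * θ ≤ T) (γ : G ⧸ rotSub C R)
    (hP : ∀ c ∈ C, ∀ u w, X.d c u = 1 → X.d c w = 1 →
      (qGS (rotSub C R) X H.iso).Pr (qmk _ c) (qmk _ p) (qmk _ u) →
      (qGS (rotSub C R) X H.iso).Pr (qmk _ c) (γ • qmk _ p) (qmk _ w) →
      ∃ r ∈ R c, X.Av c T u (r • w)) :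
    ∃ g : G, QuotientGroup.mk' (rotSub C R) g = γ ∧
      X.d p (g • p) = (qGS (rotSub C R) X H.iso).d (qmk _ p) (γ • qmk _ p) ∧
      Sm X C p g (T + 2 * θ) := by
  obtain ⟨q, h1, h2, h3⟩ := geo_lift H p T hT _ (γ • qmk _ p) rfl
    (fun c hc u w a1 a2 _ a4 a5 => hP c hc u w a1 a2 a4 a5)
  obtain ⟨g, rfl⟩ := QuotientGroup.mk'_surjective (rotSub C R) γ
  rw [qsmul] at h1
  obtain ⟨n, hn, h4⟩ := qmk_eq.mp h1.symm
  rw [← mul_smul] at h4
  refine ⟨n * g, ?_, by rw [h4, h2], fun c hc => ?_⟩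
  · rw [map_mul, QuotientGroup.mk'_apply _ n, (QuotientGroup.eq_one_iff n).mpr hn, one_mul]
  · have a1 : p ≠ c := fun e => hp (e ▸ hc)
    have a2 : q ≠ c := fun e => H.smul_notMem (n * g) hp (by rw [h4, e]; exact hc)
    rw [h4]
    exact H.bgi.dle_of_dex hc (h3 c hc a1 a2) a1 a2

/-- elements with small angles in the quotient lift -/
theorem sm_lift (H : Rot X C R θ L) [hN : (rotSub C R).Normal]
    (hnb : ∀ y, ∃ z, z ∉ C ∧ X.d z y ≤ 1) (hind : ∀ c ∈ C, ∀ c' ∈ C, X.d c c' ≠ 1)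
    {p : V} (hp : p ∉ C) (T : ℕ) (hT : 2 * θ ≤ T) (hL : (T + 5) * θ ≤ L) (γ : G ⧸ rotSub C R)
    (hs : ∀ c ∈ C, (qGS (rotSub C R) X H.iso).Dle (qmk _ c) (qmk _ p) (γ • qmk _ p) T) :
    ∃ g : G, QuotientGroup.mk' (rotSub C R) g = γ ∧ Sm X C p g (T + 2 * θ) := by
  obtain ⟨g, h1, _, h3⟩ := elt_lift H hp T hT γ (fun c hc u w a1 a2 a4 a5 =>
    loc_lift H hnb hind T hL hc a1 a2 (hs c hc _ _ a4 a5))
  exact ⟨g, h1, h3⟩

end Pool.Agent.H535Z.HG
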