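import Mathlib

set_option autoImplicit false

/-!
# `T₀`-groups: definitions
-/

namespace Pool.Agent.H535Z.HG

/-- The periodic part of a subgroup: its elements of finite order. -/
def periodicPart {G : Type} [Group G] (X : Subgroup G) : Set G := {x | x ∈ X ∧ IsOfFinOrder x}

/-- `P` is a Frobenius group with kernel `F` and complement `H`; `x ∈ H^g` means
`g * x * g⁻¹ ∈ H`. -/
def IsFrobenius (P : Type) [Group P] (F H : Subgroup P) : Prop :=
  H ≠ ⊥ ∧ H ≠ ⊤ ∧ (∀ g : P, g ∉ H → ∀ x : P, x ∈ H → g * x * g⁻¹ ∈ H → x = 1) ∧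
  (F : Set P) = {x : P | ¬ ∃ g : P, g * x * g⁻¹ ∈ H} ∪ {1} ∧ F.Normal ∧
  (∀ p : P, ∃ f ∈ F, ∃ h ∈ H, p = f * h) ∧ F ⊓ H = ⊥

/-- `G` is a `T₀`-group with respect to the involution `i`. -/
def IsT0At (G : Type) [Group G] (i : G) : Prop :=
  orderOf i = 2 ∧
  (∀ j k : G, IsConj i j → IsConj i k → IsOfFinOrder (j * k)) ∧
  (∀ P : Subgroup G, IsPGroup 2 P →
    IsCyclic P ∨ ∃ n : ℕ, 1 ≤ n ∧ Nonempty (P ≃* QuaternionGroup (2 ^ n))) ∧
  (Infinite (Subgroup.centralizer ({i} : Set G)) ∧ Subgroup.centralizer ({i} : Set G) ≠ ⊤ ∧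
    (periodicPart (Subgroup.centralizer ({i} : Set G))).Finite) ∧
  (∀ K : Subgroup G, K ≠ ⊥ → Finite K → (fun x => i⁻¹ * x * i) '' (K : Set G) = K →
    Subgroup.normalizer (K : Set G) ≤ Subgroup.centralizer ({i} : Set G) ∨
    ∃ P : Subgroup G, (P : Set G) = periodicPart (Subgroup.normalizer (K : Set G)) ∧
      ∃ F H : Subgroup P, IsFrobenius P F H ∧ (∀ a ∈ F, ∀ b ∈ F, a * b = b * a) ∧
        Finite H ∧ Even (Nat.card H)) ∧
  (∀ c : G, c ∉ Subgroup.centralizer ({i} : Set G) → orderOf (c * i) = 2 →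
    ∃ s ∈ Subgroup.centralizer ({i} : Set G),
      Infinite (Subgroup.closure ({c, s⁻¹ * c * s} : Set G)))

end Pool.Agent.H535Z.HG
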