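import Pool.Agent.H668Z.SC.Fill
import Pool.Agent.H535Z.HG.T0Def

set_option autoImplicit false

/-!
# Dehn fillings of hyperbolic groups with torsion (soft version): definitions and statements
-/

namespace Pool.Agent.H535Z.HG

open Pool.Agent.H668Z.SC

/-- A proper cobounded isometric action on a hyperbolic graph. -/
structure Geo (G : Type) {V : Type} [Group G] [MulAction G V] (X : GS V) (o : V) : Prop where
  iso : Iso X G
  hyp : ∃ δ, X.Slim δ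
  prop : ∀ R : ℕ, {g : G | X.d o (g • o) ≤ R}.Finite
  cob : ∃ K, ∀ v, ∃ g : G, X.d v (g • o) ≤ K

/-- Hyperbolic groups. -/
def Hyp (G : Type) [Group G] : Prop :=
  ∃ (V : Type) (_ : MulAction G V) (X : GS V) (o : V), Geo G X o

/-- The elements which centralise or invert `g`. -/
def Epm {G : Type} [Group G] (g : G) : Subgroup G where
  carrier := {t | t * g * t⁻¹ = g ∨ t * g * t⁻¹ = g⁻¹}
  one_mem' := by left; group
  mul_mem' := by
    intro a b ha hb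
    have e : a * b * g * (a * b)⁻¹ = a * (b * g * b⁻¹) * a⁻¹ := by group
    have e' : a * g⁻¹ * a⁻¹ = (a * g * a⁻¹)⁻¹ := by group
    rcases ha with ha | ha <;> rcases hb with hb | hb
    · left; rw [e, hb, ha]
    · right; rw [e, hb, e', ha]
    · right; rw [e, hb, ha]
    · left; rw [e, hb, e', ha, inv_inv]
  inv_mem' := by
    intro a ha
    rcases ha with ha | ha
    · left
      calc a⁻¹ * g * a⁻¹⁻¹ = a⁻¹ * (a * g * a⁻¹) * a⁻¹⁻¹ := by rw [ha]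
        _ = g := by group
    · right
      calc a⁻¹ * g * a⁻¹⁻¹ = (a⁻¹ * g⁻¹ * a⁻¹⁻¹)⁻¹ := by group
        _ = (a⁻¹ * (a * g * a⁻¹) * a⁻¹⁻¹)⁻¹ := by rw [ha]
        _ = g⁻¹ := by group

lemma mem_Epm {G : Type} [Group G] {g t : G} :
    t ∈ Epm g ↔ t * g * t⁻¹ = g ∨ t * g * t⁻¹ = g⁻¹ := Iff.rfl

/-- Almost malnormal subgroups. -/
def AMal {G : Type} [Group G] (E : Subgroup G) : Prop :=
  ∀ t : G, t ∉ E → {e : G | e ∈ E ∧ t⁻¹ * e * t ∈ E}.Finite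

/-- Quasi-convex subgroups. -/
def QC {G V : Type} [Group G] [MulAction G V] (X : GS V) (o : V) (E : Subgroup G) : Prop :=
  ∃ K, ∀ e ∈ E, ∀ v, X.Btw o v (e • o) → ∃ e' ∈ E, X.d v (e' • o) ≤ K

/-- The cone-off along the cosets of `E`; `c` is the apex of the cone over the orbit `E o`. -/
structure Cone {G W : Type} [Group G] [MulAction G W] (Y : GS W) (o c : W) (E : Subgroup G) :
    Prop where
  iso : Iso Y G
  hyp : ∃ δ, Y.Slim δ
  stab : ∀ g : G, g • c = c ↔ g ∈ E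
  nb : ∀ w, Y.d c w = 1 ↔ ∃ e ∈ E, w = e • o
  onc : ∀ g : G, g • c ≠ o
  cob : ∃ K, ∀ w, ∃ g : G, Y.d w (g • o) ≤ K
  conn : ∀ g : G, ∃ T, ∀ h : G, Y.Dle (h • c) o (g • o) T
  prop : ∀ R T : ℕ, {g : G | Y.d o (g • o) ≤ R ∧ ∀ h : G, Y.Dle (h • c) o (g • o) T}.Finite
  fine : ∀ T : ℕ, {e : G | e ∈ E ∧ Y.Av c T o (e • o)}.Finite

/-- Centralisers of elements of infinite order are virtually cyclic. -/
def S_vc : Prop := ∀ (G : Type) [Group G], Hyp G → ∀ g : G, ¬ IsOfFinOrder g →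
  ∃ F : Set G, F.Finite ∧ ∀ a : G, Commute a g → ∃ f ∈ F, a * f⁻¹ ∈ Subgroup.zpowers g

/-- A torsion-free virtually cyclic centraliser is cyclic. -/
def S_cyc : Prop := ∀ (G : Type) [Group G] (g : G) (F : Set G), F.Finite →
  (∀ a : G, Commute a g → ∃ f ∈ F, a * f⁻¹ ∈ Subgroup.zpowers g) →
  (∀ a : G, Commute a g → IsOfFinOrder a → a = 1) →
  ∃ s : G, ∀ a : G, Commute a g ↔ a ∈ Subgroup.zpowers s

/-- Extended centralisers are quasi-convex. -/
def S_qc : Prop := ∀ (G V : Type) [Group G] [MulAction G V] (X : GS V) (o : V), Geo G X o →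
  ∀ g : G, QC X o (Epm g)

/-- Cone-off along a quasi-convex almost malnormal subgroup. -/
def S_cone : Prop := ∀ (G V : Type) [Group G] [MulAction G V] (X : GS V) (o : V)
  (E : Subgroup G), Geo G X o → QC X o E → AMal E →
  ∃ (W : Type) (_ : MulAction G W) (Y : GS W) (o' c : W), Cone Y o' c E

/-- A group with a bounded orbit fixes an apex or has an orbit with small angles. -/
def S_fp : Prop := ∀ (G W : Type) [Group G] [MulAction G W] (Y : GS W) (C : Set W) (θ : ℕ),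
  Iso Y G → BGI Y Set.univ θ → (∀ (g : G), ∀ c ∈ C, g • c ∈ C) →
  (∀ c ∈ C, ∀ c' ∈ C, Y.d c c' ≠ 1) →
  ∀ (H : Subgroup G) (x : W) (r : ℕ), (∀ h ∈ H, Y.d x (h • x) ≤ r) →
  (∃ c ∈ C, ∀ h ∈ H, h • c = c) ∨
    ∃ p, p ∉ C ∧ ∀ h ∈ H, ∀ c ∈ C, Y.Dle c p (h • p) (4 * θ)

/-- An element of finite order with small angles at both ends fixes the apices with a large
angle. -/
def S_fix : Prop := ∀ (G W : Type) [Group G] [MulAction G W] (Y : GS W) (C : Set W) (θ T : ℕ),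
  Iso Y G → BGI Y C θ → (∀ (g : G), ∀ c ∈ C, g • c ∈ C) →
  ∀ (f : G) (p q c : W), IsOfFinOrder f → p ∉ C → q ∉ C → c ∈ C →
  (∀ j : ℕ, Y.Dle c p (f ^ j • p) T ∧ Y.Dle c q (f ^ j • q) T) →
  ¬ Y.Dle c p q (2 * T + 2 * θ) → f • c = c

/-- Dehn filling with finite quotient of the peripheral subgroup. -/
def S_fill : Prop := ∀ (G W : Type) [Group G] [MulAction G W] (Y : GS W) (o c : W)
  (E : Subgroup G), Cone Y o c E → ∀ F : Set G, F.Finite → (1 : G) ∉ F →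
  ∃ F₁ : Set G, F₁.Finite ∧ (∀ f ∈ F₁, f ∈ E) ∧
    ∀ R : Subgroup G, R ≤ E → (∀ e ∈ E, ∀ r ∈ R, e * r * e⁻¹ ∈ R) →
    (∀ f ∈ F₁, f ∈ R → f = 1) →
    (∃ F₀ : Set G, F₀.Finite ∧ ∀ e ∈ E, ∃ f ∈ F₀, e * f⁻¹ ∈ R) →
    ∃ (G' : Type) (_ : Group G') (π : G →* G'), Function.Surjective π ∧
      π.ker = Subgroup.normalClosure (R : Set G) ∧ Hyp G' ∧ (∀ f ∈ F, π f ≠ 1) ∧
      (∀ e ∈ E, π e = 1 ↔ e ∈ R) ∧
      (∀ H : Subgroup G', Finite H →
        (∃ t : G, ∀ h ∈ H, ∃ e ∈ E, h = π (t * e * t⁻¹)) ∨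
        ∃ H' : Subgroup G, Finite H' ∧ H'.map π = H) ∧
      (∀ r a : G', IsOfFinOrder r → (¬ ∃ t : G, ∃ e ∈ E, r = π (t * e * t⁻¹)) → Commute a r →
        ∃ r' a' : G, π r' = r ∧ π a' = a ∧ Commute a' r' ∧ orderOf r' = orderOf r) ∧
      (∀ e ∈ E, ∀ t : G, (∃ e' ∈ E, π (t⁻¹ * e * t) = π e') →
        (∃ e' ∈ E, π t = π e') ∨ ∃ e₁ ∈ E, ∃ f ∈ F₁, π (e₁⁻¹ * e * e₁) = π f)

/-- An element of `a ⟨⟨g⟩⟩` which is loxodromic in the cone-off. -/
def S_ex : Prop := ∀ (G W : Type) [Group G] [MulAction G W] (Y : GS W) (o c : W)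
  (E : Subgroup G), Cone Y o c E → Infinite E → ∀ a g : G, g ∉ E → a⁻¹ * g ∉ E →
  ∃ x ∈ E, ∀ m : ℕ, 0 < m → ∀ t : G, t⁻¹ * (a * x * g * x⁻¹ * g⁻¹) ^ m * t ∉ E

/-- Finite subgroups lie in cyclic groups of odd order or in dihedral groups over them. -/
def Dih (G : Type) [Group G] : Prop :=
  ∀ H : Subgroup G, Finite H → ∃ ρ j : G, Odd (orderOf ρ) ∧ ∀ h ∈ H, h ∈ Subgroup.zpowers ρ ∨
    (h * j ∈ Subgroup.zpowers ρ ∧ j * j = 1 ∧ j * ρ * j⁻¹ = ρ⁻¹)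

/-- The algebraic invariants. -/
structure Alg (G : Type) [Group G] (i z y : G) : Prop where
  sq : i * i = 1
  ne : i ≠ 1
  zi : Commute z i
  zinf : ¬ IsOfFinOrder z
  yi : ¬ Commute y i
  conj : ∀ x : G, x * x = 1 → x ≠ 1 → ∃ t : G, x = t * i * t⁻¹
  dih : Dih G
  cen : ∀ r a : G, Odd (orderOf r) → r ≠ 1 → Commute a r → IsOfFinOrder a

/-- Centralisers of distinct involutions meet trivially. -/
def S_mal : Prop := ∀ (G : Type) [Group G] (i z y : G), Hyp G → Alg G i z y →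
  ∀ x x' a : G, x * x = 1 → x ≠ 1 → x' * x' = 1 → x' ≠ 1 → x ≠ x' →
    Commute a x → Commute a x' → a = 1

/-- One step: an element of infinite order which centralises no involution becomes periodic. -/
def S_step : Prop := ∀ (G : Type) [Group G] (i z y : G), Hyp G → Alg G i z y →
  ∀ s : G, ¬ IsOfFinOrder s → (∀ x : G, x * x = 1 → Commute x s → x = 1) →
  ∀ m : ℕ, 0 < m → ∃ (G' : Type) (_ : Group G') (π : G →* G'), Function.Surjective π ∧ Hyp G' ∧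
    Alg G' (π i) (π z) (π y) ∧ ∃ n : ℕ, n.Coprime m ∧ 0 < n ∧ π s ^ n = 1

/-- The two kinds of tasks. -/
def S_task : Prop := ∀ (G : Type) [Group G] (i z y : G), Hyp G → Alg G i z y →
  (∀ t : G, ∃ (G' : Type) (_ : Group G') (π : G →* G'), Function.Surjective π ∧ Hyp G' ∧
    Alg G' (π i) (π z) (π y) ∧ IsOfFinOrder (π (i * (t * i * t⁻¹)))) ∧
  ∀ (a g : G) (m : ℕ), 0 < m → ∃ (G' : Type) (_ : Group G') (π : G →* G'),
    Function.Surjective π ∧ Hyp G' ∧ Alg G' (π i) (π z) (π y) ∧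
    (π g = 1 ∨ ∃ n : ℕ, n.Coprime m ∧ 0 < n ∧ π a ^ n ∈ Subgroup.normalClosure ({π g} : Set G'))

/-- The first group of the tower. -/
def S_base : Prop := ∃ (G : Type) (_ : Group G) (i z y : G), Hyp G ∧ Alg G i z y

/-- The limit of the tower. -/
def S_lim : Prop := ∃ (G : Type) (_ : Group G) (i z y : G), Alg G i z y ∧
  (∀ t : G, IsOfFinOrder (i * (t * i * t⁻¹))) ∧ IsSimpleGroup G

/-- The limit is a `T₀`-group. -/
def S_T0 : Prop := ∀ (G : Type) [Group G] (i z y : G), Alg G i z y →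
  (∀ t : G, IsOfFinOrder (i * (t * i * t⁻¹))) → IsT0At G i

end Pool.Agent.H535Z.HG
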